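import Mathlib
import Pool.Agent.Lib.P41eeb1.Gen

set_option autoImplicit false

open TopologicalSpace

namespace Pool.Agent.Results.MP_41eeb1_gt.UncountableRealImage

universe u

/-- Let `G` be a topological group some closed subgroup `M` of which has a continuous homomorphism
to the additive group of reals with uncountable image. Then there is a group `H` of functions from
a set `I` to the circle (topology of pointwise convergence), all of whose subgroups are separable,
such that `G × H` has a closed subgroup which is not separable. -/
theorem result (G : Type u) [TopologicalSpace G] [Group G] [IsTopologicalGroup G]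
    (M : Subgroup G) (hM : IsClosed (M : Set G)) (f : M →* Multiplicative ℝ)
    (hf : Continuous f) (hu : ¬ (Set.range f).Countable) :
    ∃ (I : Type) (H : Subgroup (I → Circle)), (∀ K : Subgroup H, SeparableSpace K) ∧
      ∃ L : Subgroup (G × H), IsClosed (L : Set (G × H)) ∧ ¬ SeparableSpace L :=
  Pool.Agent.P41eeb1.main_gen G M hM f hf hu

end Pool.Agent.Results.MP_41eeb1_gt.UncountableRealImage
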